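import Pool.Agent.Work.MP_65e34f.Basic

/-!
# MP_65e34f_al, block LWS : lower bound for the word `sq`
-/

namespace Pool.FG.helper22

open Pool.FG Matrix

lemma LWS_quad {K : Type} [Field K] (b c : K) : Set.ncard {t : K | t ^ 2 + b * t + c = 0} ≤ 2 := by
  by_cases h : ∃ t0 : K, t0 ^ 2 + b * t0 + c = 0
  · obtain ⟨t0, h0⟩ := h
    have hsub : {t : K | t ^ 2 + b * t + c = 0} ⊆ {t0, -b - t0} := by
      intro t ht
      have ht' : t ^ 2 + b * t + c = 0 := ht
      have h1 : (t - t0) * (t + t0 + b) = 0 := by linear_combination ht' - h0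
      rcases mul_eq_zero.mp h1 with h2 | h2
      · left; exact sub_eq_zero.mp h2
      · right
        show t = -b - t0
        linear_combination h2
    exact (Set.ncard_le_ncard hsub (Set.toFinite _)).trans
      ((Set.ncard_insert_le _ _).trans (by simp))
  · have : {t : K | t ^ 2 + b * t + c = 0} = ∅ := by
      ext t
      simp only [Set.mem_ofPred_eq, Set.mem_empty_iff_false, iff_false]
      exact fun ht => h ⟨t, ht⟩
    rw [this]; simp

lemma LWS_card_W (K : Type) [Field K] [Finite K] :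
    Nat.card K ≤ 2 * Set.ncard {t : K | ∃ w : K, w ≠ 0 ∧ t = w ^ 2 - 2} + 1 := by
  have h1 : Set.ncard {w : K | w ≠ 0} ≤ Set.ncard {t : K | ∃ w : K, w ≠ 0 ∧ t = w ^ 2 - 2} * 2 := by
    apply ncard_le_mul_of_fiber (Set.toFinite _) (Set.toFinite _) (fun w : K => w ^ 2 - 2)
    · intro w hw
      exact ⟨w, hw, rfl⟩
    · intro t _
      refine le_trans (Set.ncard_le_ncard ?_ (Set.toFinite _)) (LWS_quad (0 : K) (-2 - t))
      intro w hw
      have h2 : w ^ 2 - 2 = t := hw.2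
      show w ^ 2 + 0 * w + (-2 - t) = 0
      linear_combination h2
  have h2 : Nat.card K ≤ Set.ncard {w : K | w ≠ 0} + 1 := by
    have h3 : (Set.univ : Set K) ⊆ insert 0 {w : K | w ≠ 0} := by
      intro w _
      by_cases hw : w = 0
      · left; exact hw
      · right; exact hw
    have h4 := Set.ncard_le_ncard h3 (Set.toFinite _)
    rw [Set.ncard_univ] at h4
    exact h4.trans (Set.ncard_insert_le _ _)
  omega

/-- for a nonscalar `y` and a trace `τ`: many `x` of trace `τ` such that `tr (y x) = w² - 2` -/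
lemma LWS_fibre (hTWO : Stmt_TWO) (K : Type) [Field K] [Finite K] (hq : 10 ≤ Nat.card K)
    (y : SL K) (hy : ¬ Sc y) (τ : K) :
    Nat.card K ^ 2 ≤ 8 * Set.ncard {x : SL K | tr x = τ ∧ ∃ w : K, w ≠ 0 ∧ tr (y * x) = w ^ 2 - 2} := by
  set q := Nat.card K with hqdef
  set W : Set K := {t : K | ∃ w : K, w ≠ 0 ∧ t = w ^ 2 - 2} with hW
  set T : Set K := {t : K | t ∈ W ∧ kap (tr y) τ t ≠ 2} with hT
  have h1 : W.ncard ≤ T.ncard + 2 := by
    have hbad : Set.ncard {t : K | kap (tr y) τ t = 2} ≤ 2 := by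
      refine le_trans (Set.ncard_le_ncard ?_ (Set.toFinite _))
        (LWS_quad (-(tr y * τ)) ((tr y) ^ 2 + τ ^ 2 - 4))
      intro t ht
      have ht' : kap (tr y) τ t = 2 := ht
      unfold kap at ht'
      show t ^ 2 + -(tr y * τ) * t + ((tr y) ^ 2 + τ ^ 2 - 4) = 0
      linear_combination ht'
    have hsub : W ⊆ T ∪ {t : K | kap (tr y) τ t = 2} := by
      intro t ht
      by_cases h : kap (tr y) τ t = 2
      · right; exact h
      · left; exact ⟨ht, h⟩
    have h2 := Set.ncard_le_ncard hsub (Set.toFinite _)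
    have h3 := Set.ncard_union_le T {t : K | kap (tr y) τ t = 2}
    omega
  have h2 : q ≤ 2 * W.ncard + 1 := LWS_card_W K
  have h3 : T.ncard * (q - 3) ≤
      Set.ncard {x : SL K | tr x = τ ∧ ∃ w : K, w ≠ 0 ∧ tr (y * x) = w ^ 2 - 2} := by
    apply mul_le_ncard_of_fiber (Set.toFinite _) (Set.toFinite _) (fun x : SL K => tr (y * x))
    intro t ht
    have h4 := (hTWO K y hy τ t).2 ht.2
    have h5 : {x : SL K | tr x = τ ∧ tr (y * x) = t} ⊆
        {a | a ∈ {x : SL K | tr x = τ ∧ ∃ w : K, w ≠ 0 ∧ tr (y * x) = w ^ 2 - 2} ∧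
          (fun x : SL K => tr (y * x)) a = t} := by
      rintro x ⟨hx1, hx2⟩
      obtain ⟨w, hw, hw2⟩ := ht.1
      exact ⟨⟨hx1, w, hw, hx2.trans hw2⟩, hx2⟩
    have h6 := Set.ncard_le_ncard h5 (Set.toFinite _)
    have h7 : q - 3 ≤ Set.ncard {x : SL K | tr x = τ ∧ tr (y * x) = t} := by omega
    exact h7.trans h6
  have h4 : q ≤ 4 * T.ncard := by omega
  have h5 : q ≤ 2 * (q - 3) := by omega
  calc q ^ 2 = q * q := by ring
    _ ≤ (4 * T.ncard) * (2 * (q - 3)) := Nat.mul_le_mul h4 h5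
    _ = 8 * (T.ncard * (q - 3)) := by ring
    _ ≤ _ := Nat.mul_le_mul_left 8 h3

theorem stmt_LWS (hPRO : Stmt_PRO) (hTWO : Stmt_TWO) (hSQR : Stmt_SQR) (hCNJ : Stmt_CNJ)
    (_hTRC : Stmt_TRC) : Stmt_LWS := by
  intro ds hds
  match ds, hds with
  | [], _ =>
    refine ⟨0, 0, ?_⟩
    intro K _ _ _ _ hcl
    have : (2 : ℕ) ≤ ([] : List ℕ).length := hcl
    simp at this
  | [m], _ =>
    refine ⟨0, 0, ?_⟩
    intro K _ _ _ _ hcl
    have : (2 : ℕ) ≤ [m].length := hcl
    simp at this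
  | m :: m' :: es, hds =>
    obtain ⟨C, N, hP⟩ := hPRO (m' :: es) (by simp) (fun k hk => hds k (List.mem_cons_of_mem _ hk))
    refine ⟨8 * C, max N 10, ?_⟩
    intro K _ _ hq hliv _
    have hq1 : N ≤ Nat.card K := le_trans (le_max_left _ _) hq
    have hq2 : 10 ≤ Nat.card K := le_trans (le_max_right _ _) hq
    have hP' := hP K hq1 (fun k hk => hliv k (List.mem_cons_of_mem _ hk))
    obtain ⟨x0, hx0, hx0m⟩ := hliv m (by simp)
    set P : Set (List (SL K)) :=
      {xs | xs ∈ Xs (m' :: es) (⊤ : Subgroup (SL K)) ∧ ¬ Sc xs.prod} with hPdef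
    have hPfin : P.Finite := (Xs_finite (m' :: es) ⊤).subset (fun xs h => h.1)
    set T : List (SL K) → Set (SL K) := fun ys =>
      {x : SL K | tr x = tr x0 ∧ ∃ w : K, w ≠ 0 ∧ tr (ys.prod * x) = w ^ 2 - 2} with hTdef
    set B : ℕ := (Nat.card K ^ 2 + 7) / 8 with hB
    have hB1 : Nat.card K ^ 2 ≤ 8 * B := by omega
    have h1 : P.ncard * B ≤ Set.ncard {w : List (SL K) × SL K | w.1 ∈ P ∧ w.2 ∈ T w.1} := by
      apply le_ncard_prod hPfin T (fun a _ => Set.toFinite _)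
      intro ys hys
      have := LWS_fibre hTWO K hq2 ys.prod hys.2 (tr x0)
      change Nat.card K ^ 2 ≤ 8 * (T ys).ncard at this
      omega
    have hsq : ∀ w : List (SL K) × SL K, w.2 ∈ T w.1 → ∃ a : SL K, a ^ 2 = (w.2 * w.1.prod)⁻¹ := by
      rintro ⟨ys, x⟩ ⟨_, w, hw, hw2⟩
      refine (hSQR K).2.2.2 _ w hw ?_
      rw [tr_inv, tr_mul_comm]
      exact hw2
    choose! sq hsqs using hsq
    have h2 : Set.ncard {w : List (SL K) × SL K | w.1 ∈ P ∧ w.2 ∈ T w.1} ≤
        (Tup .sq (m :: m' :: es) (⊤ : Subgroup (SL K))).ncard := by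
      refine Set.ncard_le_ncard_of_injOn (fun w => (w.2 :: w.1, fun _ => sq w)) ?_ ?_
        (Tup_finite _ _ _)
      · rintro ⟨ys, x⟩ ⟨hys, hx⟩
        refine ⟨?_, fun _ => Subgroup.mem_top _, ?_⟩
        · exact cons_mem_Xs.mpr ⟨Subgroup.mem_top _, (hCNJ K).2 x0 x m hx0 hx0m hx.1, hys.1⟩
        · show Sc ((x :: ys).prod * (sq (ys, x)) ^ 2)
          rw [hsqs (ys, x) hx, List.prod_cons, mul_inv_cancel]
          exact Sc_one
      · rintro ⟨ys, x⟩ _ ⟨ys', x'⟩ _ h
        have h3 := congrArg Prod.fst h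
        simp only [List.cons.injEq] at h3
        rw [h3.1, h3.2]
    have hlen : dimW .sq (m :: m' :: es).length = 2 * (m' :: es).length + 2 := by
      simp only [dimW, List.length_cons]; ring
    rw [hlen, pow_add]
    calc Nat.card K ^ (2 * (m' :: es).length) * Nat.card K ^ 2
        ≤ (C * P.ncard) * (8 * B) := Nat.mul_le_mul hP' hB1
      _ = 8 * C * (P.ncard * B) := by ring
      _ ≤ 8 * C * (Tup .sq (m :: m' :: es) (⊤ : Subgroup (SL K))).ncard :=
          Nat.mul_le_mul_left _ (h1.trans h2)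

end Pool.FG.helper22
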