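import Pool.Agent.Work.MP_65e34f.Basic

/-!
# MP_65e34f_al, block TGO : good triangle case, few non-generating triples
-/

namespace Pool.FG.helper22

open Pool.FG Matrix

section
variable {K : Type} [Field K]

/-! ### elements of trace `±2` -/

lemma TGO_pow (x : SL K) (e : K) (he : e ^ 2 = 1) (hx : tr x = 2 * e) (n : ℕ) :
    ((x : M2 K)) ^ (n + 1) = (((n : K) + 1) * e ^ n) • (x : M2 K) - ((n : K) * e ^ (n + 1)) • (1 : M2 K) := by
  induction n with
  | zero => simp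
  | succ n ih =>
    rw [pow_succ, ih, sub_mul, smul_mul_assoc, smul_mul_assoc, one_mul, mul_self_eq, hx, smul_sub,
      smul_smul]
    have h1 : ((n : K) + 1) * e ^ n * (2 * e) - (n : K) * e ^ (n + 1) =
        (((n + 1 : ℕ) : K) + 1) * e ^ (n + 1) := by
      push_cast; ring
    have h2 : ((n : K) + 1) * e ^ n = ((n + 1 : ℕ) : K) * e ^ (n + 1 + 1) := by
      push_cast
      have : e ^ (n + 1 + 1) = e ^ n := by
        rw [show n + 1 + 1 = n + 2 by ring, pow_add, he, mul_one]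
      rw [this]
    rw [← h1, ← h2]
    module

lemma TGO_unip (x : SL K) (m : ℕ) (hm1 : 1 ≤ m) (hm : (m : K) ≠ 0) (hx : ¬ Sc x) (hxm : Sc (x ^ m)) :
    tr x ^ 2 ≠ 4 := by
  intro h4
  apply hx
  obtain ⟨n, rfl⟩ : ∃ n, m = n + 1 := ⟨m - 1, by omega⟩
  by_cases h2 : (2 : K) = 0
  · -- characteristic 2 : `tr x = 0 = 2 * 1`
    have h0 : tr x = 2 * 1 := by
      have : tr x ^ 2 = 0 := by rw [h4]; linear_combination 2 * h2
      have h5 : tr x = 0 := by simpa using this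
      rw [h5, mul_one, h2]
    have hp := TGO_pow x 1 (by ring) h0 n
    rw [Sc_iff] at hxm ⊢
    have hcoe : (x ^ (n + 1)).1 = (x : M2 K) ^ (n + 1) := by simp
    rw [hcoe, hp] at hxm
    simp only [one_pow, mul_one, Matrix.sub_apply, Matrix.smul_apply, smul_eq_mul] at hxm
    obtain ⟨ha, hb, hc⟩ := hxm
    have hm' : (n : K) + 1 ≠ 0 := by
      intro h; apply hm; push_cast; exact h
    refine ⟨?_, ?_, ?_⟩
    · have : ((n : K) + 1) * x.1 0 1 = 0 := by simpa using ha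
      exact (mul_eq_zero.mp this).resolve_left hm'
    · have : ((n : K) + 1) * x.1 1 0 = 0 := by simpa using hb
      exact (mul_eq_zero.mp this).resolve_left hm'
    · have : ((n : K) + 1) * (x.1 0 0 - x.1 1 1) = 0 := by
        have := hc
        simp only [Matrix.one_apply_eq, mul_one] at this
        linear_combination this
      exact sub_eq_zero.mp ((mul_eq_zero.mp this).resolve_left hm')
  · set e : K := tr x / 2 with hedef
    have he : e ^ 2 = 1 := by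
      rw [hedef, div_pow, h4, show (4 : K) = 2 ^ 2 by norm_num]
      exact div_self (pow_ne_zero _ h2)
    have hx2 : tr x = 2 * e := by rw [hedef]; field_simp
    have he0 : e ≠ 0 := by
      intro h; rw [h] at he; norm_num at he
    have hp := TGO_pow x e he hx2 n
    rw [Sc_iff] at hxm ⊢
    have hcoe : (x ^ (n + 1)).1 = (x : M2 K) ^ (n + 1) := by simp
    rw [hcoe, hp] at hxm
    simp only [Matrix.sub_apply, Matrix.smul_apply, smul_eq_mul] at hxm
    obtain ⟨ha, hb, hc⟩ := hxm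
    have hm' : ((n : K) + 1) * e ^ n ≠ 0 := by
      apply mul_ne_zero
      · intro h; apply hm; push_cast; exact h
      · exact pow_ne_zero _ he0
    refine ⟨?_, ?_, ?_⟩
    · have : (((n : K) + 1) * e ^ n) * x.1 0 1 = 0 := by simpa using ha
      exact (mul_eq_zero.mp this).resolve_left hm'
    · have : (((n : K) + 1) * e ^ n) * x.1 1 0 = 0 := by simpa using hb
      exact (mul_eq_zero.mp this).resolve_left hm'
    · have : (((n : K) + 1) * e ^ n) * (x.1 0 0 - x.1 1 1) = 0 := by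
        have := hc
        simp only [Matrix.one_apply_eq, mul_one] at this
        linear_combination this
      exact sub_eq_zero.mp ((mul_eq_zero.mp this).resolve_left hm')

lemma TGO_dsc (x : SL K) : dsc (x : M2 K) = tr x ^ 2 - 4 := by
  unfold dsc
  rw [x.2, mul_one]
  rfl

/-- the case of a scalar entry -/
lemma TGO_scalar (a b c : SL K) (hc : Sc c) (hab : Sc (a * b)) (ha : ¬ Sc a → tr a ^ 2 ≠ 4) :
    ∃ y : M2 K, dsc y ≠ 0 ∧ a ∈ Nor y ∧ b ∈ Nor y ∧ c ∈ Nor y := by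
  by_cases h : Sc a
  · refine ⟨!![1, 0; 0, 0], ?_, ?_, ?_, ?_⟩
    · simp [dsc, Matrix.det_fin_two]
    · exact sc_mem (neg_one_mem_Nor _) h
    · have : b = a⁻¹ * (a * b) := by group
      rw [this]
      exact sc_mem (neg_one_mem_Nor _) (h.inv.mul hab)
    · exact sc_mem (neg_one_mem_Nor _) hc
  · have haN : a ∈ Nor (a : M2 K) := Or.inl rfl
    refine ⟨(a : M2 K), ?_, haN, ?_, sc_mem (neg_one_mem_Nor _) hc⟩
    · rw [TGO_dsc]
      exact sub_ne_zero.mpr (ha h)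
    · have : b = a⁻¹ * (a * b) := by group
      rw [this]
      exact (Nor (a : M2 K)).mul_mem ((Nor (a : M2 K)).inv_mem haN)
        (sc_mem (neg_one_mem_Nor _) hab)

/-! ### the Borel case -/

lemma TGO_ord {M : Type} [CommMonoid M] (a b c : M) (h : a * b * c = 1)
    (hab : Nat.Coprime (orderOf a) (orderOf b)) (hac : Nat.Coprime (orderOf a) (orderOf c)) : a = 1 := by
  have h1 : a ^ (orderOf b * orderOf c) = 1 := by
    have h2 : (a * b * c) ^ (orderOf b * orderOf c) = 1 := by rw [h, one_pow]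
    rw [mul_pow, mul_pow] at h2
    have h3 : b ^ (orderOf b * orderOf c) = 1 := by rw [pow_mul, pow_orderOf_eq_one, one_pow]
    have h4 : c ^ (orderOf b * orderOf c) = 1 := by
      rw [mul_comm, pow_mul, pow_orderOf_eq_one, one_pow]
    rwa [h3, h4, mul_one, mul_one] at h2
  have h2 : orderOf a ∣ orderOf b * orderOf c := orderOf_dvd_of_pow_eq_one h1
  have h3 : Nat.Coprime (orderOf a) (orderOf b * orderOf c) := Nat.Coprime.mul_right hab hac
  have h4 : orderOf a = 1 := Nat.Coprime.eq_one_of_dvd h3 h2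
  exact orderOf_eq_one_iff.mp h4

lemma TGO_eig (x : SL K) (v : Fin 2 → K) (hv : v ≠ 0) (c : K) (h : (x : M2 K).mulVec v = c • v) :
    c ^ 2 - tr x * c + 1 = 0 := by
  have h1 : ((x : M2 K) * (x : M2 K)).mulVec v = (c ^ 2) • v := by
    rw [← Matrix.mulVec_mulVec, h, Matrix.mulVec_smul, h, smul_smul, sq]
  rw [mul_self_eq, Matrix.sub_mulVec, Matrix.smul_mulVec, h, Matrix.one_mulVec, smul_smul] at h1
  have h2 : (c ^ 2 - tr x * c + 1) • v = 0 := by
    rw [add_smul, sub_smul, one_smul, ← h1]; abel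
  exact (smul_eq_zero.mp h2).resolve_right hv

lemma TGO_sc_eig (x : SL K) (v : Fin 2 → K) (hv : v ≠ 0) (c : K)
    (h : (x : M2 K).mulVec v = c • v) (hx : Sc x) : c ^ 2 = 1 := by
  rcases hx with rfl | rfl
  · have h1 : (c - 1) • v = 0 := by
      rw [sub_smul, one_smul, ← h]; simp
    have h2 := (smul_eq_zero.mp h1).resolve_right hv
    linear_combination (c + 1) * h2
  · have h1 : (c + 1) • v = 0 := by
      rw [add_smul, one_smul, ← h]
      ext i
      fin_cases i <;> simp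
    have h2 := (smul_eq_zero.mp h1).resolve_right hv
    linear_combination (c - 1) * h2

lemma TGO_pow_eig (x : SL K) (v : Fin 2 → K) (c : K)
    (h : (x : M2 K).mulVec v = c • v) (m : ℕ) : ((x ^ m : SL K) : M2 K).mulVec v = (c ^ m) • v := by
  induction m with
  | zero => simp
  | succ n ih =>
    rw [pow_succ, Matrix.SpecialLinearGroup.coe_mul, ← Matrix.mulVec_mulVec, h,
      Matrix.mulVec_smul, ih, smul_smul, pow_succ, mul_comm]

lemma TGO_cop [Finite K] (β γ : K) (hβ : β ≠ 0) (m n : ℕ) (hm : β ^ m = 1)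
    (hn : γ ^ n = 1) (hg : Nat.gcd (Nat.gcd m n) (Nat.card K - 1) = 1) :
    Nat.Coprime (orderOf β) (orderOf γ) := by
  have : Fintype K := Fintype.ofFinite K
  have h1 : orderOf β ∣ m := orderOf_dvd_of_pow_eq_one hm
  have h2 : orderOf γ ∣ n := orderOf_dvd_of_pow_eq_one hn
  have h3 : orderOf β ∣ Nat.card K - 1 := by
    apply orderOf_dvd_of_pow_eq_one
    rw [Nat.card_eq_fintype_card]
    exact FiniteField.pow_card_sub_one_eq_one β hβ
  unfold Nat.Coprime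
  apply Nat.eq_one_of_dvd_one
  rw [← hg]
  apply Nat.dvd_gcd
  · exact Nat.dvd_gcd ((Nat.gcd_dvd_left _ _).trans h1) ((Nat.gcd_dvd_right _ _).trans h2)
  · exact (Nat.gcd_dvd_left _ _).trans h3

/-- data of one element in a Borel subgroup -/
lemma TGO_one (x : SL K) (v : Fin 2 → K) (hv : v ≠ 0) (hx : x ∈ Bor v hv) (m : ℕ)
    (hxm : Sc (x ^ m)) (h4 : tr x ^ 2 ≠ 4) :
    ∃ c : K, (x : M2 K).mulVec v = c • v ∧ (c ^ 2) ^ m = 1 ∧ c ^ 2 ≠ 1 ∧ c ^ 2 ≠ 0 := by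
  obtain ⟨c, hc⟩ := hx
  have he := TGO_eig x v hv c hc
  refine ⟨c, hc, ?_, ?_, ?_⟩
  · have := TGO_sc_eig (x ^ m) v hv (c ^ m) (TGO_pow_eig x v c hc m) hxm
    rw [← pow_mul, mul_comm, pow_mul]
    exact this
  · intro h1
    apply h4
    have h2 : tr x * c = 2 := by linear_combination h1 - he
    calc tr x ^ 2 = tr x ^ 2 * c ^ 2 := by rw [h1, mul_one]
      _ = (tr x * c) ^ 2 := by ring
      _ = 4 := by rw [h2]; norm_num
  · intro h0
    have h1 : c = 0 := by simpa using h0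
    rw [h1] at he
    norm_num at he

lemma TGO_borel [Finite K] (m1 m2 m3 : ℕ) (x1 x2 x3 : SL K) (v : Fin 2 → K) (hv : v ≠ 0)
    (h1 : x1 ∈ Bor v hv) (h2 : x2 ∈ Bor v hv) (h3 : x3 ∈ Bor v hv) (hp : Sc (x1 * x2 * x3))
    (hm1 : Sc (x1 ^ m1)) (hm2 : Sc (x2 ^ m2)) (hm3 : Sc (x3 ^ m3))
    (ht1 : tr x1 ^ 2 ≠ 4) (ht2 : tr x2 ^ 2 ≠ 4) (ht3 : tr x3 ^ 2 ≠ 4)
    (hA : Nat.gcd (Nat.gcd m1 m2) (Nat.card K - 1) = 1 ∨ Nat.gcd (Nat.gcd m1 m3) (Nat.card K - 1) = 1)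
    (hB : Nat.gcd (Nat.gcd m1 m2) (Nat.card K - 1) = 1 ∨ Nat.gcd (Nat.gcd m2 m3) (Nat.card K - 1) = 1)
    (hC : Nat.gcd (Nat.gcd m1 m3) (Nat.card K - 1) = 1 ∨
      Nat.gcd (Nat.gcd m2 m3) (Nat.card K - 1) = 1) : False := by
  obtain ⟨c1, hc1, ho1, hn1, hz1⟩ := TGO_one x1 v hv h1 m1 hm1 ht1
  obtain ⟨c2, hc2, ho2, hn2, hz2⟩ := TGO_one x2 v hv h2 m2 hm2 ht2
  obtain ⟨c3, hc3, ho3, hn3, hz3⟩ := TGO_one x3 v hv h3 m3 hm3 ht3
  have hprod : c1 ^ 2 * c2 ^ 2 * c3 ^ 2 = 1 := by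
    have h4 : ((x1 * x2 * x3 : SL K) : M2 K).mulVec v = (c3 * c2 * c1) • v := by
      rw [Matrix.SpecialLinearGroup.coe_mul, ← Matrix.mulVec_mulVec, hc3, Matrix.mulVec_smul,
        Matrix.SpecialLinearGroup.coe_mul, ← Matrix.mulVec_mulVec, hc2, Matrix.mulVec_smul, hc1,
        smul_smul, smul_smul, mul_assoc]
    have h5 := TGO_sc_eig _ v hv _ h4 hp
    linear_combination h5
  -- two of the three gcds are trivial
  have key : ∀ (a b c : K) (k l n : ℕ), a * b * c = 1 → a ≠ 0 → a ^ k = 1 → b ^ l = 1 → c ^ n = 1 →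
      Nat.gcd (Nat.gcd k l) (Nat.card K - 1) = 1 → Nat.gcd (Nat.gcd k n) (Nat.card K - 1) = 1 →
      a = 1 := by
    intro a b c k l n habc ha hak hbl hcn hg1 hg2
    exact TGO_ord a b c habc (TGO_cop a b ha k l hak hbl hg1) (TGO_cop a c ha k n hak hcn hg2)
  rcases hA with hA | hA
  · rcases hC with hC | hC
    · exact hn1 (key _ _ _ m1 m2 m3 hprod hz1 ho1 ho2 ho3 hA hC)
    · refine hn2 (key (c2 ^ 2) (c1 ^ 2) (c3 ^ 2) m2 m1 m3 (by linear_combination hprod) hz2 ho2 ho1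
        ho3 (by rw [Nat.gcd_comm m2 m1]; exact hA) hC)
  · rcases hB with hB | hB
    · exact hn1 (key _ _ _ m1 m2 m3 hprod hz1 ho1 ho2 ho3 hB hA)
    · refine hn3 (key (c3 ^ 2) (c1 ^ 2) (c2 ^ 2) m3 m1 m2 (by linear_combination hprod) hz3 ho3 ho1
        ho2 (by rw [Nat.gcd_comm m3 m1]; exact hA) (by rw [Nat.gcd_comm m3 m2]; exact hB))

/-! ### the case of a subfield -/

lemma TGO_sub_one (L : Subfield K) (g : GL (Fin 2) K) (x : SL K) (c : K) (M : M2 L)
    (h : (x : M2 K) = c • ((g : M2 K) * inc L M * ((g⁻¹ : GL (Fin 2) K) : M2 K))) :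
    tr x = c * ((M 0 0 + M 1 1 : L) : K) ∧ c ^ 2 * ((M.det : L) : K) = 1 := by
  have hg : ((g⁻¹ : GL (Fin 2) K) : M2 K) * (g : M2 K) = 1 := by
    rw [← Units.val_mul, inv_mul_cancel, Units.val_one]
  have hg' : (g : M2 K).det * (((g⁻¹ : GL (Fin 2) K) : M2 K)).det = 1 := by
    rw [← Matrix.det_mul, ← Units.val_mul, mul_inv_cancel, Units.val_one, Matrix.det_one]
  have htr : (inc L M).trace = ((M 0 0 + M 1 1 : L) : K) := by
    simp [inc, Matrix.trace_fin_two]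
  have hdet : (inc L M).det = ((M.det : L) : K) := by
    simp [inc, Matrix.det_fin_two]
  constructor
  · rw [tr_eq_trace, h, Matrix.trace_smul, mul_assoc, Matrix.trace_mul_comm, mul_assoc, hg, mul_one,
      htr, smul_eq_mul]
  · have h1 := x.2
    rw [h, Matrix.det_smul, Matrix.det_mul, Matrix.det_mul, hdet] at h1
    simp only [Fintype.card_fin] at h1
    linear_combination h1 - c ^ 2 * ((M.det : L) : K) * hg'

lemma TGO_sub (L : Subfield K) (g : GL (Fin 2) K) (x1 x2 x3 : SL K)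
    (h1 : x1 ∈ HL L g) (h2 : x2 ∈ HL L g) (h3 : x3 ∈ HL L g) (hp : Sc (x1 * x2 * x3)) :
    tr x1 ^ 2 ∈ L ∧ tr x2 ^ 2 ∈ L ∧ tr x3 ^ 2 ∈ L ∧ tr x1 * tr x2 * tr x3 ∈ L := by
  obtain ⟨c1, M1, e1⟩ := h1
  obtain ⟨c2, M2', e2⟩ := h2
  obtain ⟨c3, M3, e3⟩ := h3
  obtain ⟨t1, d1⟩ := TGO_sub_one L g x1 c1 M1 e1
  obtain ⟨t2, d2⟩ := TGO_sub_one L g x2 c2 M2' e2
  obtain ⟨t3, d3⟩ := TGO_sub_one L g x3 c3 M3 e3
  have key : ∀ (c t : K) (s d : L), t = c * (s : K) → c ^ 2 * (d : K) = 1 → t ^ 2 ∈ L := by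
    intro c t s d ht hd
    have hd0 : (d : K) ≠ 0 := by
      intro h; rw [h, mul_zero] at hd; exact zero_ne_one hd
    have h4 : t ^ 2 = ((s ^ 2 / d : L) : K) := by
      push_cast
      rw [eq_div_iff hd0, ht]
      linear_combination (s : K) ^ 2 * hd
    rw [h4]
    exact (s ^ 2 / d : L).2
  refine ⟨key _ _ _ _ t1 d1, key _ _ _ _ t2 d2, key _ _ _ _ t3 d3, ?_⟩
  have hg : ((g⁻¹ : GL (Fin 2) K) : M2 K) * (g : M2 K) = 1 := by
    rw [← Units.val_mul, inv_mul_cancel, Units.val_one]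
  -- the product
  have hprod : ((g⁻¹ : GL (Fin 2) K) : M2 K) * ((x1 * x2 * x3 : SL K) : M2 K) * (g : M2 K) =
      (c1 * c2 * c3) • inc L (M1 * M2' * M3) := by
    rw [Matrix.SpecialLinearGroup.coe_mul, Matrix.SpecialLinearGroup.coe_mul, e1, e2, e3,
      inc_mul, inc_mul]
    simp only [smul_mul_assoc, mul_smul_comm, smul_smul]
    congr 1
    · ring
    · calc ((g⁻¹ : GL (Fin 2) K) : M2 K) * ((g : M2 K) * inc L M1 * ((g⁻¹ : GL (Fin 2) K) : M2 K) *
            ((g : M2 K) * inc L M2' * ((g⁻¹ : GL (Fin 2) K) : M2 K)) *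
            ((g : M2 K) * inc L M3 * ((g⁻¹ : GL (Fin 2) K) : M2 K))) * (g : M2 K)
          = (((g⁻¹ : GL (Fin 2) K) : M2 K) * (g : M2 K)) * inc L M1 *
            (((g⁻¹ : GL (Fin 2) K) : M2 K) * (g : M2 K)) * inc L M2' *
            (((g⁻¹ : GL (Fin 2) K) : M2 K) * (g : M2 K)) * inc L M3 *
            (((g⁻¹ : GL (Fin 2) K) : M2 K) * (g : M2 K)) := by simp only [mul_assoc]
        _ = inc L M1 * inc L M2' * inc L M3 := by rw [hg]; simp only [mul_one, one_mul]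
  have hc : c1 * c2 * c3 ∈ L := by
    have hentry : ∃ s : L, c1 * c2 * c3 * ((s : L) : K) = 1 := by
      rcases hp with hp | hp
      · rw [hp] at hprod
        refine ⟨(M1 * M2' * M3) 0 0, ?_⟩
        have h4 := congrFun (congrFun hprod 0) 0
        rw [Matrix.SpecialLinearGroup.coe_one, mul_one, hg] at h4
        simpa [inc] using h4.symm
      · rw [hp] at hprod
        refine ⟨-(M1 * M2' * M3) 0 0, ?_⟩
        have h4 := congrFun (congrFun hprod 0) 0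
        rw [Matrix.SpecialLinearGroup.coe_neg, Matrix.SpecialLinearGroup.coe_one, mul_neg, mul_one,
          neg_mul, hg] at h4
        have h5 : -(1 : K) = c1 * c2 * c3 * (((M1 * M2' * M3) 0 0 : L) : K) := by
          simpa [inc] using h4
        push_cast
        linear_combination h5
    obtain ⟨s, hs⟩ := hentry
    have hs0 : (s : K) ≠ 0 := by
      intro h; rw [h, mul_zero] at hs; exact zero_ne_one hs
    have h4 : c1 * c2 * c3 = ((s⁻¹ : L) : K) := by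
      push_cast
      exact eq_inv_of_mul_eq_one_left hs
    rw [h4]
    exact (s⁻¹ : L).2
  have h5 : tr x1 * tr x2 * tr x3 = (c1 * c2 * c3) *
      (((M1 0 0 + M1 1 1) * (M2' 0 0 + M2' 1 1) * (M3 0 0 + M3 1 1) : L) : K) := by
    rw [t1, t2, t3]
    push_cast
    ring
  rw [h5]
  exact L.mul_mem hc (SetLike.coe_mem _)

/-! ### orders -/

lemma TGO_zpow {x : SL K} (h : Sc x) (n : ℤ) : Sc (x ^ n) := by
  cases n with
  | ofNat n => rw [Int.ofNat_eq_natCast, zpow_natCast]; exact h.pow n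
  | negSucc n => rw [zpow_negSucc]; exact (h.pow _).inv

lemma TGO_gcd (x : SL K) (k m : ℕ) (hk : Sc (x ^ k)) (hm : Sc (x ^ m)) :
    Sc (x ^ (Nat.gcd k m)) := by
  have h1 : x ^ (Nat.gcd k m) = (x ^ k) ^ (Nat.gcdA k m) * (x ^ m) ^ (Nat.gcdB k m) := by
    rw [← zpow_natCast x k, ← zpow_natCast x m, ← _root_.zpow_mul, ← _root_.zpow_mul, ← _root_.zpow_add,
      ← Nat.gcd_eq_gcd_ab, zpow_natCast]
  rw [h1]
  exact (TGO_zpow hk _).mul (TGO_zpow hm _)

lemma TGO_ncop (x : SL K) (hx : ¬ Sc x) (k m : ℕ) (hk : Sc (x ^ k)) (hm : Sc (x ^ m)) :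
    ¬ Nat.Coprime k m := by
  intro h
  have := TGO_gcd x k m hk hm
  rw [h, pow_one] at this
  exact hx this

/-- the small case: `H` consists of elements of order 2, 3, 4 -/
lemma TGO_sma1 (x : SL K) (hx : ¬ Sc x) (m : ℕ) (hm : Sc (x ^ m))
    (h : Sc (x ^ 2) ∨ Sc (x ^ 3) ∨ Sc (x ^ 4)) : ¬ Nat.Coprime m 6 := by
  intro hc
  rcases h with h | h | h
  · exact TGO_ncop x hx 2 m h hm (Nat.Coprime.coprime_dvd_right (by norm_num) hc).symm
  · exact TGO_ncop x hx 3 m h hm (Nat.Coprime.coprime_dvd_right (by norm_num) hc).symm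
  · have h2 : Nat.Coprime m 2 := Nat.Coprime.coprime_dvd_right (by norm_num) hc
    have h4 : Nat.Coprime m (2 ^ 2) := Nat.Coprime.pow_right 2 h2
    exact TGO_ncop x hx 4 m h hm (by simpa using h4.symm)

lemma TGO_sma2 (x : SL K) (hx : ¬ Sc x) (m : ℕ) (hm : Sc (x ^ m))
    (h : Sc (x ^ 2) ∨ Sc (x ^ 3) ∨ Sc (x ^ 5)) :
    ¬ Nat.Coprime m 30 ∧ (¬ Nat.Coprime m 6 ∨ (Sc (x ^ 5) ∧ 5 ∣ m)) := by
  rcases h with h | h | h
  · have h2 := TGO_ncop x hx 2 m h hm
    exact ⟨fun hc => h2 (Nat.Coprime.coprime_dvd_right (by norm_num) hc).symm,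
      Or.inl fun hc => h2 (Nat.Coprime.coprime_dvd_right (by norm_num) hc).symm⟩
  · have h2 := TGO_ncop x hx 3 m h hm
    exact ⟨fun hc => h2 (Nat.Coprime.coprime_dvd_right (by norm_num) hc).symm,
      Or.inl fun hc => h2 (Nat.Coprime.coprime_dvd_right (by norm_num) hc).symm⟩
  · have h2 := TGO_ncop x hx 5 m h hm
    refine ⟨fun hc => h2 (Nat.Coprime.coprime_dvd_right (by norm_num) hc).symm, Or.inr ⟨h, ?_⟩⟩
    by_contra h5
    exact h2 ((Nat.Prime.coprime_iff_not_dvd (by norm_num)).mpr h5)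

lemma TGO_char [Finite K] (h5 : 5 ∣ Nat.card K) : ringChar K = 5 := by
  have : Fintype K := Fintype.ofFinite K
  obtain ⟨n, hp, hn⟩ := FiniteField.card K (ringChar K)
  rw [Nat.card_eq_fintype_card, hn] at h5
  have h6 := Nat.Prime.dvd_of_dvd_pow (by norm_num : Nat.Prime 5) h5
  exact ((Nat.prime_dvd_prime_iff_eq (by norm_num) hp).mp h6).symm

lemma TGO_five (hLIV : Stmt_LIV) [Finite K] (x : SL K) (hx : ¬ Sc x) (h5 : Sc (x ^ 5))
    (hp : ringChar K ≠ 5) : 5 ∣ Nat.card K ^ 2 - 1 := by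
  have h1 : ¬ Nat.Coprime 5 (Nat.card K * (Nat.card K ^ 2 - 1)) :=
    (hLIV K 5 (by norm_num)).mp ⟨x, hx, h5⟩
  have h2 : 5 ∣ Nat.card K * (Nat.card K ^ 2 - 1) := by
    by_contra h
    exact h1 ((Nat.Prime.coprime_iff_not_dvd (by norm_num)).mpr h)
  rcases (Nat.Prime.dvd_mul (by norm_num)).mp h2 with h | h
  · exact absurd (TGO_char h) hp
  · exact h

/-- the natural number `m` is not zero in `K` if it is prime to the characteristic -/
lemma TGO_cast [Finite K] (m : ℕ) (h : Nat.Coprime (ringChar K) m) : (m : K) ≠ 0 := by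
  intro h0
  have h1 : ringChar K ∣ m := (ringChar.spec K m).mp h0
  have h2 := Nat.Coprime.eq_one_of_dvd h h1
  exact CharP.ringChar_ne_one h2

lemma TGO_core (hDIC : Stmt_DIC) (hLIV : Stmt_LIV) [Finite K] (m1 m2 m3 : ℕ) (hTri : Tri K m1 m2 m3)
    (hc1 : Nat.Coprime (ringChar K) m1) (hc2 : Nat.Coprime (ringChar K) m2)
    (hc3 : Nat.Coprime (ringChar K) m3)
    (x1 x2 x3 : SL K) (H : Subgroup (SL K)) (hneg : -1 ∈ H) (hne : H ≠ ⊤)
    (m1' : x1 ∈ H) (m2' : x2 ∈ H) (m3' : x3 ∈ H) (hp : Sc (x1 * x2 * x3))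
    (s1 : Sc (x1 ^ m1)) (s2 : Sc (x2 ^ m2)) (s3 : Sc (x3 ^ m3))
    (n1 : ¬ Sc x1) (n2 : ¬ Sc x2) (n3 : ¬ Sc x3)
    (ht1 : tr x1 ^ 2 ≠ 4) (ht2 : tr x2 ^ 2 ≠ 4) (ht3 : tr x3 ^ 2 ≠ 4) :
    ∃ y : M2 K, dsc y ≠ 0 ∧ H ≤ Nor y := by
  obtain ⟨-, -, -, -, h6, h30, hgA, hgB, hgC, htr⟩ := hTri
  rcases hDIC K H hneg hne with ⟨v, hv, hH⟩ | ⟨y, hy, hH⟩ | ⟨hS, -⟩ | ⟨L, hL, g, hH⟩
  · exfalso
    exact TGO_borel m1 m2 m3 x1 x2 x3 v hv (hH m1') (hH m2') (hH m3') hp s1 s2 s3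
      ht1 ht2 ht3 hgA hgB hgC
  · exact ⟨y, hy, hH⟩
  · exfalso
    rcases hS.2 with hS | hS
    · have a1 := TGO_sma1 x1 n1 m1 s1 (hS x1 m1')
      have a2 := TGO_sma1 x2 n2 m2 s2 (hS x2 m2')
      have a3 := TGO_sma1 x3 n3 m3 s3 (hS x3 m3')
      rcases h6 with h | h | h
      · exact a1 h
      · exact a2 h
      · exact a3 h
    · obtain ⟨a1, b1⟩ := TGO_sma2 x1 n1 m1 s1 (hS x1 m1')
      obtain ⟨a2, b2⟩ := TGO_sma2 x2 n2 m2 s2 (hS x2 m2')
      obtain ⟨a3, b3⟩ := TGO_sma2 x3 n3 m3 s3 (hS x3 m3')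
      have hno5 : ¬ 5 ∣ Nat.card K ^ 2 - 1 := by
        intro h
        rcases h30 h with h | h | h
        · exact a1 h
        · exact a2 h
        · exact a3 h
      have hc5 : ∀ m : ℕ, Nat.Coprime (ringChar K) m → 5 ∣ m → ringChar K ≠ 5 := by
        intro m hm h5 hr
        rw [hr] at hm
        exact (Nat.Prime.coprime_iff_not_dvd (by norm_num)).mp hm h5
      have c1 : ¬ Nat.Coprime m1 6 := by
        rcases b1 with b | ⟨b, b'⟩
        · exact b
        · exact absurd (TGO_five hLIV x1 n1 b (hc5 m1 hc1 b')) hno5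
      have c2 : ¬ Nat.Coprime m2 6 := by
        rcases b2 with b | ⟨b, b'⟩
        · exact b
        · exact absurd (TGO_five hLIV x2 n2 b (hc5 m2 hc2 b')) hno5
      have c3 : ¬ Nat.Coprime m3 6 := by
        rcases b3 with b | ⟨b, b'⟩
        · exact b
        · exact absurd (TGO_five hLIV x3 n3 b (hc5 m3 hc3 b')) hno5
      rcases h6 with h | h | h
      · exact c1 h
      · exact c2 h
      · exact c3 h
  · exfalso
    obtain ⟨a1, a2, a3, a4⟩ := TGO_sub L g x1 x2 x3 (hH m1') (hH m2') (hH m3') hp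
    exact hL (htr _ ⟨x1, n1, s1, rfl⟩ _ ⟨x2, n2, s2, rfl⟩ _ ⟨x3, n3, s3, rfl⟩ L a1 a2 a3 a4)

end

lemma TGO_ev (m1 m2 m3 : ℕ) (h12 : ¬ (Even m1 ∧ Even m2)) (h13 : ¬ (Even m1 ∧ Even m3))
    (h23 : ¬ (Even m2 ∧ Even m3)) : dimN .zero [m1, m2, m3] = 0 := by
  rw [Nat.even_iff, Nat.even_iff] at h12 h13 h23
  have h : ev [m1, m2, m3] ≤ 1 := by
    unfold ev
    by_cases a1 : m1 % 2 = 0
    · have a2 : ¬ m2 % 2 = 0 := fun h => h12 ⟨a1, h⟩
      have a3 : ¬ m3 % 2 = 0 := fun h => h13 ⟨a1, h⟩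
      rw [List.filter_cons_of_pos (by simpa using a1), List.filter_cons_of_neg (by simpa using a2),
        List.filter_cons_of_neg (by simpa using a3)]
      simp
    · rw [List.filter_cons_of_neg (by simpa using a1)]
      by_cases a2 : m2 % 2 = 0
      · have a3 : ¬ m3 % 2 = 0 := fun h => h23 ⟨a2, h⟩
        rw [List.filter_cons_of_pos (by simpa using a2), List.filter_cons_of_neg (by simpa using a3)]
        simp
      · rw [List.filter_cons_of_neg (by simpa using a2)]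
        exact List.length_filter_le _ _
  show 2 * (ev [m1, m2, m3] / 2) = 0
  omega

theorem stmt_TGO (hDIC : Stmt_DIC) (hUPN : Stmt_UPN) (hRPN : Stmt_RPN) (hLIV : Stmt_LIV)
    (_hCRD : Stmt_CRD) : Stmt_TGO := by
  intro m1 m2 m3 hm1 hm2 hm3
  obtain ⟨C, hC⟩ := hUPN .zero [m1, m2, m3] (by
    intro m hm
    simp only [List.mem_cons, List.not_mem_nil, or_false] at hm
    rcases hm with rfl | rfl | rfl <;> assumption)
  refine ⟨3 * C, ?_⟩
  intro K _ _ hTri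
  obtain ⟨hch, he12, he13, he23, h6, h30, hgA, hgB, hgC, htr⟩ := hTri
  have hc1 : Nat.Coprime (ringChar K) m1 :=
    Nat.Coprime.coprime_dvd_right ⟨6 * m2 * m3, by ring⟩ hch
  have hc2 : Nat.Coprime (ringChar K) m2 :=
    Nat.Coprime.coprime_dvd_right ⟨6 * m1 * m3, by ring⟩ hch
  have hc3 : Nat.Coprime (ringChar K) m3 :=
    Nat.Coprime.coprime_dvd_right ⟨6 * m1 * m2, by ring⟩ hch
  have hdim : dimN .zero [m1, m2, m3] = 0 := TGO_ev m1 m2 m3 he12 he13 he23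
  have hR := hRPN .zero [m1, m2, m3] K (C * Nat.card K ^ dimN .zero [m1, m2, m3])
    (fun y hy => hC K y hy)
  rw [hdim, pow_zero, mul_one] at hR
  have hsub : Bad .zero [m1, m2, m3] K ⊆
      {t | t ∈ Tup .zero [m1, m2, m3] (⊤ : Subgroup (SL K)) ∧ ∃ y : M2 K, dsc y ≠ 0 ∧ gn t ≤ Nor y} := by
    rintro ⟨xs, w⟩ ⟨ht, hgn⟩
    refine ⟨ht, ?_⟩
    have hXs := ht.1
    obtain ⟨x1, ys, e1, -, s1, hXs⟩ := mem_Xs_cons.mp hXs
    obtain ⟨x2, zs, e2, -, s2, hXs⟩ := mem_Xs_cons.mp hXs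
    obtain ⟨x3, us, e3, -, s3, hXs⟩ := mem_Xs_cons.mp hXs
    rw [Xs_nil] at hXs
    have e4 : us = [] := hXs
    subst e4
    subst e3
    subst e2
    change xs = [x1, x2, x3] at e1
    subst e1
    have hp : Sc (x1 * x2 * x3) := by
      have : Sc ([x1, x2, x3] : List (SL K)).prod := ht.2.2
      simpa [mul_assoc] using this
    have ht1 : ¬ Sc x1 → tr x1 ^ 2 ≠ 4 := fun h => TGO_unip x1 m1 hm1 (TGO_cast m1 hc1) h s1
    have ht2 : ¬ Sc x2 → tr x2 ^ 2 ≠ 4 := fun h => TGO_unip x2 m2 hm2 (TGO_cast m2 hc2) h s2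
    have ht3 : ¬ Sc x3 → tr x3 ^ 2 ≠ 4 := fun h => TGO_unip x3 m3 hm3 (TGO_cast m3 hc3) h s3
    have hgen : ∀ y : M2 K, dsc y ≠ 0 → x1 ∈ Nor y → x2 ∈ Nor y → x3 ∈ Nor y →
        ∃ y : M2 K, dsc y ≠ 0 ∧ gn (([x1, x2, x3], w) : List (SL K) × (Fin Wd.zero.n → SL K)) ≤ Nor y := by
      intro y hy k1 k2 k3
      refine ⟨y, hy, gn_le_iff.mpr ⟨?_, ?_, neg_one_mem_Nor y⟩⟩
      · intro x hx
        simp only [List.mem_cons, List.not_mem_nil, or_false] at hx
        rcases hx with rfl | rfl | rfl <;> assumption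
      · intro j
        exact Fin.elim0 j
    by_cases n1 : Sc x1
    · have h23 : Sc (x2 * x3) := by
        have : x2 * x3 = x1⁻¹ * (x1 * x2 * x3) := by group
        rw [this]; exact n1.inv.mul hp
      obtain ⟨y, hy, k2, k3, k1⟩ := TGO_scalar x2 x3 x1 n1 h23 ht2
      exact hgen y hy k1 k2 k3
    by_cases n2 : Sc x2
    · have h13 : Sc (x1 * x3) := by
        have : x1 * x3 = x2⁻¹ * (x1 * x2 * x3) := by
          rw [mul_assoc x1 x2 x3, n2.comm x3, ← mul_assoc x1 x3 x2,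
            ← n2.comm (x1 * x3), inv_mul_cancel_left]
        rw [this]; exact n2.inv.mul hp
      obtain ⟨y, hy, k1, k3, k2⟩ := TGO_scalar x1 x3 x2 n2 h13 ht1
      exact hgen y hy k1 k2 k3
    by_cases n3 : Sc x3
    · have h12 : Sc (x1 * x2) := by
        have : x1 * x2 = (x1 * x2 * x3) * x3⁻¹ := by group
        rw [this]; exact hp.mul n3.inv
      obtain ⟨y, hy, k1, k2, k3⟩ := TGO_scalar x1 x2 x3 n3 h12 ht1
      exact hgen y hy k1 k2 k3
    have m1' : x1 ∈ gn (([x1, x2, x3], w) : List (SL K) × (Fin Wd.zero.n → SL K)) :=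
      mem_gn_left (by simp)
    have m2' : x2 ∈ gn (([x1, x2, x3], w) : List (SL K) × (Fin Wd.zero.n → SL K)) :=
      mem_gn_left (by simp)
    have m3' : x3 ∈ gn (([x1, x2, x3], w) : List (SL K) × (Fin Wd.zero.n → SL K)) :=
      mem_gn_left (by simp)
    obtain ⟨y, hy, hH⟩ := TGO_core hDIC hLIV m1 m2 m3 ⟨hch, he12, he13, he23, h6, h30, hgA, hgB, hgC,
      htr⟩ hc1 hc2 hc3 x1 x2 x3 _ (neg_one_mem_gn _) hgn m1' m2' m3' hp s1 s2 s3 n1 n2 n3 (ht1 n1)
      (ht2 n2) (ht3 n3)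
    exact ⟨y, hy, hH⟩
  have h1 := Set.ncard_le_ncard hsub ((Tup_finite _ _ _).subset (fun t ht => ht.1))
  have hq := two_le_card (K := K)
  calc (Bad .zero [m1, m2, m3] K).ncard ≤ (Nat.card K ^ 2 + Nat.card K + 1) * C := h1.trans hR
    _ ≤ (3 * Nat.card K ^ 2) * C := by
      apply Nat.mul_le_mul_right
      nlinarith
    _ = 3 * C * Nat.card K ^ 2 := by ring

end Pool.FG.helper22
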