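import Pool.Agent.Work.MP_65e34f.Basic

/-!
# MP_65e34f_al, block SBF : subfields of a finite field
-/

namespace Pool.FG.helper22

open Pool.FG

lemma SBF_pow (n : ℕ) : n ^ 4 ≤ 21 * 2 ^ n := by
  by_cases hn : n < 6
  · interval_cases n <;> norm_num
  · push Not at hn
    induction n, hn using Nat.le_induction with
    | base => norm_num
    | succ n hn ih =>
      have h1 : (n + 1) ^ 4 ≤ 2 * n ^ 4 := by
        have h2 : 6 * (n + 1) ≤ 7 * n := by omega
        have h3 : (6 * (n + 1)) ^ 4 ≤ (7 * n) ^ 4 := Nat.pow_le_pow_left h2 4
        rw [mul_pow, mul_pow] at h3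
        norm_num at h3
        omega
      calc (n + 1) ^ 4 ≤ 2 * n ^ 4 := h1
        _ ≤ 2 * (21 * 2 ^ n) := Nat.mul_le_mul_left 2 ih
        _ = 21 * 2 ^ (n + 1) := by ring

lemma SBF_card (K : Type) [Field K] [Finite K] (L : Subfield K) :
    Nat.card K = Nat.card L ^ Module.finrank L K := Module.natCard_eq_pow_finrank

lemma SBF_pos (K : Type) [Field K] [Finite K] (L : Subfield K) : 1 ≤ Module.finrank L K := by
  have : Module.Finite L K := inferInstance
  exact Module.finrank_pos

lemma SBF_two (K : Type) [Field K] [Finite K] (L : Subfield K) : 2 ≤ Nat.card L := by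
  have : Finite L := inferInstance
  have := Finite.one_lt_card (α := L)
  omega

/-- a subfield with `n` elements is the set of solutions of `x^n = x` -/
lemma SBF_mem (K : Type) [Field K] [Finite K] (L : Subfield K) (x : K) :
    x ∈ L ↔ x ^ Nat.card L = x := by
  classical
  have : Fintype K := Fintype.ofFinite K
  have : Fintype L := Fintype.ofFinite L
  have h2 := SBF_two K L
  set n := Nat.card L with hn
  have hmem : ∀ y ∈ L, y ^ n = y := by
    intro y hy
    have := FiniteField.pow_card (⟨y, hy⟩ : L)
    rw [← Nat.card_eq_fintype_card] at this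
    exact congrArg Subtype.val this
  have hroots : Set.ncard {y : K | y ^ n = y} ≤ n := by
    have hne : (Polynomial.X ^ n - Polynomial.X : Polynomial K) ≠ 0 :=
      FiniteField.X_pow_card_sub_X_ne_zero K (by omega)
    have hdeg : (Polynomial.X ^ n - Polynomial.X : Polynomial K).natDegree = n :=
      FiniteField.X_pow_card_sub_X_natDegree_eq K (by omega)
    have h3 := Polynomial.card_roots' (Polynomial.X ^ n - Polynomial.X : Polynomial K)
    rw [hdeg] at h3
    have h4 : {y : K | y ^ n = y} ⊆
        ((Polynomial.X ^ n - Polynomial.X : Polynomial K).roots.toFinset : Set K) := by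
      intro y hy
      have hy' : y ^ n = y := hy
      simp only [Finset.mem_coe, Multiset.mem_toFinset]
      rw [Polynomial.mem_roots hne]
      simp [hy']
    refine (Set.ncard_le_ncard h4 (Set.toFinite _)).trans ?_
    rw [Set.ncard_coe_finset]
    exact (Multiset.toFinset_card_le _).trans h3
  have hsub : (L : Set K) ⊆ {y : K | y ^ n = y} := fun y hy => hmem y hy
  have heq : (L : Set K) = {y : K | y ^ n = y} := by
    apply Set.eq_of_subset_of_ncard_le hsub _ (Set.toFinite _)
    have : (L : Set K).ncard = n := rfl
    rw [this]
    exact hroots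
  constructor
  · exact hmem x
  · intro hx
    have : x ∈ (L : Set K) := by rw [heq]; exact hx
    exact this

theorem stmt_SBF : Stmt_SBF := by
  constructor
  · refine ⟨21, ?_⟩
    intro K _ _
    have hfinS : Finite (Subfield K) := by
      apply Finite.of_injective (fun L : Subfield K => (L : Set K))
      exact SetLike.coe_injective
    have hinj : Function.Injective (fun L : Subfield K => Module.finrank L K) := by
      intro L L' h
      have h' : Module.finrank L K = Module.finrank L' K := h
      have h1 := SBF_card K L
      have h2 := SBF_card K L'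
      rw [← h'] at h2
      have h3 : Nat.card L = Nat.card L' :=
        Nat.pow_left_injective (Nat.one_le_iff_ne_zero.mp (SBF_pos K L)) (h1.symm.trans h2)
      ext x
      rw [SBF_mem, SBF_mem, h3]
    have hle : Nat.card (Subfield K) ≤ Nat.log 2 (Nat.card K) := by
      have hmaps : ∀ L : Subfield K, Module.finrank L K ∈ Finset.Icc 1 (Nat.log 2 (Nat.card K)) := by
        intro L
        rw [Finset.mem_Icc]
        refine ⟨SBF_pos K L, ?_⟩
        apply Nat.le_log_of_pow_le (by norm_num)
        rw [SBF_card K L]
        exact Nat.pow_le_pow_left (SBF_two K L) _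
      have h4 : Nat.card (Subfield K) ≤
          Nat.card (Finset.Icc 1 (Nat.log 2 (Nat.card K))) := by
        apply Nat.card_le_card_of_injective
          (fun L : Subfield K => (⟨Module.finrank L K, hmaps L⟩ :
            Finset.Icc 1 (Nat.log 2 (Nat.card K))))
        intro L L' h
        exact hinj (congrArg Subtype.val h)
      have h5 : Nat.card (Finset.Icc 1 (Nat.log 2 (Nat.card K))) = Nat.log 2 (Nat.card K) := by
        rw [Nat.card_eq_fintype_card, Fintype.card_coe, Nat.card_Icc]; rfl
      exact h4.trans h5.le
    calc Nat.card (Subfield K) ^ 4 ≤ (Nat.log 2 (Nat.card K)) ^ 4 := Nat.pow_le_pow_left hle 4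
      _ ≤ 21 * 2 ^ (Nat.log 2 (Nat.card K)) := SBF_pow _
      _ ≤ 21 * Nat.card K := by
        apply Nat.mul_le_mul_left
        apply Nat.pow_log_le_self
        have := two_le_card (K := K)
        omega
  · intro K _ _ L hL
    have h1 := SBF_card K L
    have h2 := SBF_two K L
    have h3 := SBF_pos K L
    have h4 : 2 ≤ Module.finrank L K := by
      by_contra hcon
      have h5 : Module.finrank L K = 1 := by omega
      rw [h5, pow_one] at h1
      apply hL
      ext x
      simp only [Subfield.mem_top, iff_true]
      rw [SBF_mem, ← h1]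
      have : Fintype K := Fintype.ofFinite K
      rw [Nat.card_eq_fintype_card]
      exact FiniteField.pow_card x
    rw [h1]
    exact Nat.pow_le_pow_right (by omega) h4

end Pool.FG.helper22
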